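import Pool.Agent.Helper21_CN2.E6c

/-!
Squad CN2: the application of X_ALN
-/

set_option autoImplicit false

namespace Pool.Agent.CN2.H21

open Pool.Agent.CON Pool.Agent.CON.H21 Pool.Agent.CN2

section

variable {M : Type} [AddCommGroup M] {b : M → M → ℤ} (h : PD b) {k : ℕ} {C : Fin k → Set M}
  {s : Fin k → ℤ} {τ : Fin k → Ty}

include h

theorem orth_cc {C D : Set M} (ho : ∀ α ∈ C, ∀ β ∈ D, b α β = 0) {x y : M}
    (hx : x ∈ AddSubgroup.closure C) (hy : y ∈ AddSubgroup.closure D) : b x y = 0 := by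
  rw [h.symm]
  refine orth_cl h (C := C) ?_ x hx
  intro α hα
  rw [h.symm]
  exact orth_cl h (ho α hα) y hy

theorem list_l {A : Type} (l : List A) (f : A → M) (y : M) :
    b (l.map f).sum y = (l.map fun a => b (f a) y).sum := by
  induction l with
  | nil => exact sho_zero h y
  | cons a l ih => rw [List.map_cons, List.sum_cons, List.map_cons, List.sum_cons, h.add_left, ih]

theorem list_norm (hC : CT b C s τ) (l : List (Tch k M)) (hnd : (l.map fun a => a.1).Nodup)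
    (hl : ∀ a ∈ l, a.2.1 ∈ AddSubgroup.closure (C a.1)) :
    b (l.map fun a => a.2.1).sum (l.map fun a => a.2.1).sum =
      (l.map fun a => b a.2.1 a.2.1).sum := by
  induction l with
  | nil => exact sho_zero h _
  | cons a l ih =>
    rw [List.map_cons, List.nodup_cons] at hnd
    rw [List.map_cons, List.sum_cons, List.map_cons, List.sum_cons,
      ← ih hnd.2 fun c hc => hl c (List.mem_cons_of_mem _ hc)]
    have h0 : b (l.map fun a => a.2.1).sum a.2.1 = 0 := by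
      rw [list_l h]
      apply List.sum_eq_zero
      intro z hz
      obtain ⟨c, hc, rfl⟩ := List.mem_map.mp hz
      apply orth_cc h (hC.orth c.1 a.1 ?_) (hl c (List.mem_cons_of_mem _ hc))
        (hl a List.mem_cons_self)
      intro he
      exact hnd.1 (List.mem_map.mpr ⟨c, hc, he⟩)
    have h1 : b a.2.1 (l.map fun a => a.2.1).sum = 0 := by rw [h.symm, h0]
    rw [h.add_left, add_r h, add_r h, h0, h1]
    ring

/-- The application of X_ALN to a new root with an odd component `i0` and radical partners. -/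
theorem aln_use (hCMP : X_CMP) (hALN : X_ALN) (hC : CT b C s τ) (hbad : ¬ Bad b) (i0 : Fin k)
    {x1 ω : M} {μ e0 j0 : ℤ} {P0 : ℤ → M → Prop} (l : List (Tch k M))
    (hx1 : x1 ∈ AddSubgroup.closure (C i0)) (hω : ω ∈ AddSubgroup.closure (C i0)) (hμ : μ ≠ 0)
    (hodd : ∃ y ∈ AddSubgroup.closure (C i0), ¬ (2 : ℤ) ∣ b x1 y) (hx14 : (4 : ℤ) ∣ b x1 x1)
    (hnd : (l.map fun a => a.1).Nodup)
    (hl : ∀ a ∈ l, a.1 ≠ i0 ∧ a.2.1 ∈ AddSubgroup.closure (C a.1) ∧
      (∀ y ∈ AddSubgroup.closure (C a.1), (2 : ℤ) ∣ b a.2.1 y) ∧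
      JR b (AddSubgroup.closure (C a.1)) a.2.1 a.2.2.1 a.2.2.2)
    (hj : 4 ≤ j0 + (l.map fun a => a.2.2.1).sum)
    (hn : (4 : ℤ) ∣ (l.map fun a => b a.2.1 a.2.1).sum)
    (hJ0 : JR b (AddSubgroup.closure (C i0)) x1 j0 P0)
    (hlin : ∀ y ∈ AddSubgroup.closure (C i0), 2 * μ ∣ b y ω - μ * b y x1) (he0 : 4 * μ ∣ e0)
    (hfin : ∀ ρ T, (∀ a ∈ l, ∃ t, a.2.2.2 ρ t) → P0 ρ T → 8 * μ ∣ b T ω - e0)
    (hold : ∀ v ∈ AddSubgroup.closure (C i0), v ≠ 0 → (2 : ℤ) ∣ b x1 v →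
      (∀ y ∈ AddSubgroup.closure (C i0), (2 : ℤ) ∣ b x1 y → b v v ∣ 2 * b v y) →
      4 * μ ∣ b v ω) : False := by
  classical
  apply hbad
  set D : Set M := {z | ∃ j, j ≠ i0 ∧ z ∈ C j} with hD
  have hCD : ∀ α ∈ C i0, ∀ β ∈ D, b α β = 0 := by
    rintro α hα β ⟨j, hj, hβ⟩
    exact hC.orth i0 j hj.symm α hα β hβ
  have hle : ∀ j, j ≠ i0 → AddSubgroup.closure (C j) ≤ AddSubgroup.closure D := by
    intro j hj
    exact AddSubgroup.closure_mono fun z hz => ⟨j, hj, hz⟩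
  set x2 := (l.map fun a => a.2.1).sum with hx2
  have hx2D : x2 ∈ AddSubgroup.closure D := by
    rw [hx2]
    apply list_sum_mem
    intro z hz
    obtain ⟨a, ha, rfl⟩ := List.mem_map.mp hz
    exact hle _ (hl a ha).1 (hl a ha).2.1
  have h12 : b x1 x2 = 0 := orth_cc h hCD hx1 hx2D
  refine hALN M b (AddSubgroup.closure (C i0)) (AddSubgroup.closure D) x1 x2 ω μ e0 h
    (fun y hy z hz => orth_cc h hCD hy hz) ?_ hx1 hx2D hω hμ hodd ?_ ?_ hlin he0 ?_ hold
  · rw [eq_top_iff]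
    intro x _
    refine (AddSubgroup.closure_le _).mpr ?_ (hC.gen x)
    intro z hz
    obtain ⟨j, hj⟩ := Set.mem_iUnion.mp hz
    by_cases hji : j = i0
    · exact AddSubgroup.mem_sup_left (AddSubgroup.subset_closure (hji ▸ hj))
    · exact AddSubgroup.mem_sup_right (AddSubgroup.subset_closure ⟨j, hji, hj⟩)
  · intro y hy
    rw [hx2, list_l h]
    apply List.dvd_sum
    intro z hz
    obtain ⟨a, ha, rfl⟩ := List.mem_map.mp hz
    refine AddSubgroup.closure_induction (p := fun y _ => (2 : ℤ) ∣ b a.2.1 y) ?_ ?_ ?_ ?_ hy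
    · rintro w ⟨j, hj, hw⟩
      by_cases hja : j = a.1
      · exact (hl a ha).2.2.1 w (AddSubgroup.subset_closure (hja ▸ hw))
      · rw [orth_cc h (hC.orth a.1 j (fun he => hja he.symm)) (hl a ha).2.1
          (AddSubgroup.subset_closure hw)]
        exact dvd_zero _
    · rw [zero_r h]
      exact dvd_zero _
    · intro u v _ _ hu hv
      rw [add_r h]
      exact hu.add hv
    · intro u _ hu
      rw [h.symm, sho_neg h, h.symm]
      exact hu.neg_right
  · rw [h.add_left, add_r h, add_r h, h12, h.symm x2 x1, h12, add_zero, zero_add]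
    refine hx14.add ?_
    rw [hx2, list_norm h hC l hnd fun a ha => (hl a ha).2.1]
    exact hn
  · intro t ρ hN
    have hnd' : (((i0, x1, j0, P0) :: l).map fun a : Tch k M => a.1).Nodup := by
      rw [List.map_cons, List.nodup_cons]
      refine ⟨?_, hnd⟩
      intro hm
      obtain ⟨a, ha, hai⟩ := List.mem_map.mp hm
      exact (hl a ha).1 hai
    obtain ⟨_, T, hT1, hT2, hT3, hT4⟩ := hCMP M b k C s τ ((i0, x1, j0, P0) :: l) t ρ h hC hnd' (by
      intro a ha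
      rcases List.mem_cons.mp ha with rfl | ha
      · exact ⟨hx1, hJ0⟩
      · exact ⟨(hl a ha).2.1, (hl a ha).2.2.2⟩) (by
        rw [List.map_cons, List.sum_cons]
        exact hj) (by
        rw [List.map_cons, List.sum_cons]
        exact hN)
    have h0 := hT4 (i0, x1, j0, P0) List.mem_cons_self
    have h1 : b t ω = b (T i0) ω := by
      have h2 : b ω t = ∑ i, b ω (T i) := by rw [hT1, sum_r h]
      rw [h.symm, h2, Finset.sum_eq_single i0]
      · exact h.symm _ _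
      · intro j _ hj
        rw [h.symm]
        exact orth_cc h (hC.orth j i0 hj) (hT2 j) hω
      · intro hi
        exact absurd (Finset.mem_univ _) hi
    rw [h1]
    exact hfin ρ (T i0) (fun a ha => ⟨_, (hT4 a (List.mem_cons_of_mem _ ha)).2.2⟩) h0.2.2

end

/-- Module K_A8. -/
theorem k_a8 (hCMP : X_CMP) (hALN : X_ALN) (hAX : J_AX) (hAM : J_AM) (hAO : J_AO) : K_A8 := by
  intro M _ b k C s τ h hC hbad i0 m hs hτ
  by_contra hm
  push Not at hm
  have hty := hC.ty i0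
  rw [hτ] at hty
  obtain ⟨_, v, hA, hInA⟩ := hty
  have hI := hC.irr i0
  obtain ⟨h1, h2, h3, h4, h5⟩ := hAX M b (C i0) (s i0) m 8 v h hI hs hA hInA (by norm_num)
    (by decide) hm
  have h6 := hAM M b (C i0) (s i0) m 8 v h hI hs hA hInA (by norm_num) (by decide) hm
  have hs0 := hI.pos
  refine aln_use h hCMP hALN hC hbad i0 (x1 := xA v 8) (ω := wA v 8) (μ := s i0 * (m + 1))
    (e0 := 0) (j0 := 4) [] h1 h2 (by positivity) h4 ?_ (by simp) (by simp) (by simp) (by simp)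
    (P0 := fun ρ t => (ρ = 2 * s i0 ∧ b t (wA v 8) = 0) ∨
      ∃ d : ℤ, 1 < d ∧ ¬ (2 : ℤ) ∣ d ∧ ρ = 2 * s i0 * d ∧ (8 : ℤ) = (m + 1 - 8) * (d - 1) ∧
        (b t (wA v 8) = s i0 * (m + 1) * 8 ∨ b t (wA v 8) = -(s i0 * (m + 1) * 8)))
    h6 h5 (dvd_zero _) ?_ ?_
  · have := h3
    push_cast at this
    omega
  · rintro ρ T _ (⟨_, h7⟩ | ⟨d, _, _, _, _, h7 | h7⟩)
    · rw [h7]; simp
    · rw [h7]; exact ⟨1, by ring⟩
    · rw [h7]; exact ⟨-1, by ring⟩
  · intro w hw hw0 hw2 hdiv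
    exact hAO M b (C i0) (s i0) m 8 v w h hI hs hA hInA (by norm_num) (by norm_num) hm hw hw0 hw2
      hdiv

/-- Module K_E6R. -/
theorem k_e6r (hCMP : X_CMP) (hALN : X_ALN) (hE6 : J_E6) (hE6O : J_E6O) : K_E6R := by
  intro M _ b k C s τ h hC hbad i0 l r hs hτ hnd hl hj hn hr
  have hty := hC.ty i0
  rw [hτ] at hty
  obtain ⟨_, F, α, hα, hD, hαF, hgen⟩ := hty
  have hE : E6D b (C i0) (s i0) F α := ⟨hD, hα, hαF, hgen⟩
  have hI := hC.irr i0
  have hs0 := hI.pos
  obtain ⟨h1, h2, h3, h4, h5, h6⟩ := hE6 M b (C i0) (s i0) F α h hI hs hE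
  refine aln_use h hCMP hALN hC hbad i0 (x1 := F 0) (ω := (4 : ℤ) • α + ∑ i, F i)
    (μ := 3 * s i0) (e0 := if r = 2 * s i0 then 0 else 12 * s i0) (j0 := 2) l h1 h2 (by positivity)
    ⟨α, AddSubgroup.subset_closure hα, h4⟩ h3 hnd hl (by rw [hj]; norm_num) hn h6 h5 ?_ ?_ ?_
  · split_ifs
    · exact dvd_zero _
    · exact ⟨1, by ring⟩
  · intro ρ T hρ hP
    have hρr := hr ρ hρ
    rcases hP with ⟨h7, h8⟩ | ⟨h7, h8 | h8⟩
    · rw [if_pos (by rw [← hρr, h7]), h8]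
      simp
    · rw [if_neg (by rw [← hρr, h7]; omega), h8]
      simp
    · rw [if_neg (by rw [← hρr, h7]; omega), h8]
      exact ⟨-1, by ring⟩
  · intro w hw hw0 hw2 hdiv
    exact hE6O M b (C i0) (s i0) F α w h hI hs hE hw hw0 hw2 hdiv

end Pool.Agent.CN2.H21
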