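import Pool.Agent.Helper21_CN2.Xf1

/-!
Squad CN2: coordinates for E_6
-/

set_option autoImplicit false

namespace Pool.Agent.CN2.H21

open Pool.Agent.CON Pool.Agent.CON.H21 Pool.Agent.CN2

section

variable {M : Type} [AddCommGroup M] {b : M → M → ℤ} (h : PD b)

include h

theorem sum_r {ι : Type} (x : M) (T : Finset ι) (f : ι → M) :
    b x (∑ i ∈ T, f i) = ∑ i ∈ T, b x (f i) := by
  classical
  induction T using Finset.induction_on with
  | empty => rw [Finset.sum_empty, Finset.sum_empty, zero_r h]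
  | insert a T ha ih => rw [Finset.sum_insert ha, Finset.sum_insert ha, add_r h, ih]

/-- the coordinates of a vector -/
structure Co (b : M → M → ℤ) (s : ℤ) (F : Fin 5 → M) (om y : M) (a : Fin 5 → ℤ) (l : ℤ) :
    Prop where
  f : ∀ i, b y (F i) = s * a i
  o : b y om = 3 * s * l
  par : ∀ i, (2 : ℤ) ∣ a i - l
  sum : (4 : ℤ) ∣ ∑ i, a i + l
  vec : (12 * s) • y = ∑ i, (3 * s * a i) • F i + (3 * s * l) • om

omit h in
theorem co_zero (h : PD b) (s : ℤ) (F : Fin 5 → M) (om : M) : Co b s F om 0 0 0 where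
  f i := by rw [sho_zero h]; simp
  o := by rw [sho_zero h]; simp
  par i := by simp
  sum := by simp
  vec := by simp

theorem Co.add {s : ℤ} {F : Fin 5 → M} {om y y' : M} {a a' : Fin 5 → ℤ} {l l' : ℤ}
    (c : Co b s F om y a l) (c' : Co b s F om y' a' l') : Co b s F om (y + y') (a + a') (l + l') where
  f i := by rw [h.add_left, c.f, c'.f, Pi.add_apply]; ring
  o := by rw [h.add_left, c.o, c'.o]; ring
  par i := by
    have h1 := c.par i
    have h2 := c'.par i
    rw [Pi.add_apply]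
    omega
  sum := by
    have h1 := c.sum
    have h2 := c'.sum
    simp only [Pi.add_apply, Finset.sum_add_distrib]
    omega
  vec := by
    rw [smul_add, c.vec, c'.vec]
    simp only [Pi.add_apply, mul_add, add_smul, Finset.sum_add_distrib]
    abel

theorem Co.neg {s : ℤ} {F : Fin 5 → M} {om y : M} {a : Fin 5 → ℤ} {l : ℤ}
    (c : Co b s F om y a l) : Co b s F om (-y) (-a) (-l) where
  f i := by rw [sho_neg h, c.f, Pi.neg_apply]; ring
  o := by rw [sho_neg h, c.o]; ring
  par i := by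
    have h1 := c.par i
    rw [Pi.neg_apply]
    omega
  sum := by
    have h1 := c.sum
    simp only [Pi.neg_apply, Finset.sum_neg_distrib]
    omega
  vec := by
    rw [smul_neg, c.vec, neg_add, ← Finset.sum_neg_distrib]
    simp only [Pi.neg_apply, mul_neg, neg_smul]

theorem co_ind {C : Set M} {s : ℤ} {F : Fin 5 → M} {α : M} (hD : DFr b C s 5 F)
    (hα : ∀ i, b α (F i) = -s) {β : M} {i j : Fin 5} (hij : i ≠ j) {e e' : ℤ}
    (hβ : (2 : ℤ) • β = e • F i + e' • F j) (he : (2 : ℤ) ∣ e + e')  :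
    Co b s F ((4 : ℤ) • α + ∑ i, F i) β
      (fun k => 2 * ((if k = i then e else 0) + (if k = j then e' else 0))) 0 := by
  have hF : ∀ k, 2 * b β (F k) = 2 * (s *
      (2 * ((if k = i then e else 0) + (if k = j then e' else 0)))) := by
    intro k
    rw [← sho_smul h, hβ, h.add_left, sho_smul h, sho_smul h]
    have h1 : ∀ i k, b (F i) (F k) = if k = i then 4 * s else 0 := by
      intro i k
      split_ifs with hk
      · rw [hk, hD.1]
      · exact hD.2.1 i k (fun h => hk h.symm)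
    rw [h1, h1]
    split_ifs <;> ring
  have hF' : ∀ k, b β (F k) = s * (2 * ((if k = i then e else 0) + (if k = j then e' else 0))) :=
    fun k => by have := hF k; linarith
  have hsum : ∑ k, (2 * ((if k = i then e else 0) + (if k = j then e' else 0)) : ℤ) =
      2 * (e + e') := by
    rw [← Finset.mul_sum, Finset.sum_add_distrib, Finset.sum_ite_eq' Finset.univ i (fun _ => e),
      Finset.sum_ite_eq' Finset.univ j (fun _ => e'), if_pos (Finset.mem_univ _),
      if_pos (Finset.mem_univ _)]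
  refine ⟨hF', ?_, ?_, ?_, ?_⟩
  · have h1 : 2 * b β α = -(s * (e + e')) := by
      rw [← sho_smul h, hβ, h.add_left, sho_smul h, sho_smul h, h.symm (F i), h.symm (F j), hα, hα]
      ring
    rw [add_r h, smul_r h, sum_r h, Finset.sum_congr rfl fun k _ => hF' k, ← Finset.mul_sum, hsum]
    linear_combination 2 * h1
  · intro k
    rw [sub_zero]
    exact Dvd.intro _ rfl
  · rw [hsum, add_zero]
    omega
  · rw [mul_zero, zero_smul, add_zero]
    have h1 : ∀ k, (3 * s * (2 * ((if k = i then e else 0) + (if k = j then e' else 0)))) • F k =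
        (if k = i then (6 * s * e) • F i else 0) + (if k = j then (6 * s * e') • F j else 0) := by
      intro k
      by_cases hk : k = i
      · have hkj : k ≠ j := fun h => hij (hk.symm.trans h)
        rw [if_pos hk, if_neg hkj, if_pos hk, if_neg hkj, hk, add_zero, add_zero]
        congr 1
        ring
      · by_cases hk' : k = j
        · rw [if_neg hk, if_pos hk', if_neg hk, if_pos hk', hk', zero_add, zero_add]
          congr 1
          ring
        · rw [if_neg hk, if_neg hk', if_neg hk, if_neg hk']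
          simp
    rw [Finset.sum_congr rfl fun k _ => h1 k, Finset.sum_add_distrib,
      Finset.sum_ite_eq' Finset.univ i (fun _ => (6 * s * e) • F i),
      Finset.sum_ite_eq' Finset.univ j (fun _ => (6 * s * e') • F j), if_pos (Finset.mem_univ _),
      if_pos (Finset.mem_univ _)]
    have h2 : (12 * s) • β = (6 * s) • ((2 : ℤ) • β) := by
      rw [smul_smul]
      congr 1
      ring
    rw [h2, hβ, smul_add, smul_smul, smul_smul]

theorem co_al {C : Set M} {s : ℤ} {F : Fin 5 → M} {α : M} (hI : Irr b C s) (hαC : α ∈ C)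
    (hα : ∀ i, b α (F i) = -s) :
    Co b s F ((4 : ℤ) • α + ∑ i, F i) α (fun _ => -1) 1 := by
  refine ⟨fun i => by rw [hα]; ring, ?_, fun i => by norm_num, ?_, ?_⟩
  · rw [add_r h, smul_r h, sum_r h, Finset.sum_congr rfl fun k _ => hα k, hI.norm α hαC]
    simp
    ring
  · simp
  · simp only [mul_neg, mul_one, neg_smul, Finset.sum_neg_distrib, smul_add, smul_smul]
    rw [← Finset.smul_sum]
    have : 3 * s * 4 = 12 * s := by ring
    rw [this]
    abel

theorem exists_co {C : Set M} {s : ℤ} {F : Fin 5 → M} {α : M} (hI : Irr b C s)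
    (hE : E6D b C s F α) {y : M} (hy : y ∈ AddSubgroup.closure C) :
    ∃ a l, Co b s F ((4 : ℤ) • α + ∑ i, F i) y a l := by
  obtain ⟨hD, hαC, hα, hgen⟩ := hE
  refine AddSubgroup.closure_induction
    (p := fun y _ => ∃ a l, Co b s F ((4 : ℤ) • α + ∑ i, F i) y a l) ?_ ?_ ?_ ?_ (hgen y hy)
  · rintro β (⟨_, i, j, hij, hβ⟩ | hβ)
    · rcases hβ with hβ | hβ | hβ
      · exact ⟨_, _, co_ind h hD hα hij (e := 1) (e' := 1) (by rw [hβ]; simp) (by norm_num)⟩
      · exact ⟨_, _, co_ind h hD hα hij (e := 1) (e' := -1) (by rw [hβ]; simp [sub_eq_add_neg])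
          (by norm_num)⟩
      · exact ⟨_, _, co_ind h hD hα hij (e := -1) (e' := -1)
          (by rw [hβ, neg_smul, neg_smul, one_smul, one_smul, neg_add]) (by norm_num)⟩
    · rw [show β = α from hβ]
      exact ⟨_, _, co_al h hI hαC hα⟩
  · exact ⟨_, _, co_zero h s F _⟩
  · rintro y y' _ _ ⟨a, l, c⟩ ⟨a', l', c'⟩
    exact ⟨_, _, c.add h c'⟩
  · rintro y _ ⟨a, l, c⟩
    exact ⟨_, _, c.neg h⟩

theorem Co.norm {s : ℤ} {F : Fin 5 → M} {om y : M} {a : Fin 5 → ℤ} {l : ℤ}
    (c : Co b s F om y a l) (hs : s ≠ 0) : 4 * b y y = s * (∑ i, a i ^ 2 + 3 * l ^ 2) := by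
  have h1 : 12 * s * b y y = ∑ i, 3 * s * a i * (s * a i) + 3 * s * l * (3 * s * l) := by
    rw [← smul_r h, c.vec, add_r h, sum_r h, smul_r h, c.o]
    congr 1
    refine Finset.sum_congr rfl fun i _ => ?_
    rw [smul_r h, c.f]
  have h2 : ∑ i, 3 * s * a i * (s * a i) = 3 * s * (s * ∑ i, a i ^ 2) := by
    rw [Finset.mul_sum, Finset.mul_sum]
    refine Finset.sum_congr rfl fun i _ => ?_
    ring
  rw [h2] at h1
  have h3 : (3 * s) * (4 * b y y) = (3 * s) * (s * (∑ i, a i ^ 2 + 3 * l ^ 2)) := by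
    linear_combination h1
  exact mul_left_cancel₀ (by simpa using hs) h3

end

/-- Module J_E6O. -/
theorem j_e6o : J_E6O := by
  intro M _ b C s F α w h hI hs hE hw hw0 hev hdiv
  have hs0 := hI.pos
  obtain ⟨a, l, c⟩ := exists_co h hI hE hw
  obtain ⟨hD, hαC, hα, hgen⟩ := hE
  have ha0 : (2 : ℤ) ∣ a 0 := by
    rw [h.symm, c.f] at hev
    rcases Int.even_or_odd' (a 0) with ⟨i, hi | hi⟩
    · exact ⟨i, hi⟩
    · exfalso
      rcases Int.even_or_odd' s with ⟨j, hj | hj⟩
      · exact hs ⟨j, hj⟩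
      · obtain ⟨m, hm⟩ := hev
        rw [hi, hj] at hm
        have : 2 * (2 * (j * i) + j + i) + 1 = 2 * m := by linear_combination hm
        omega
  have hl : (2 : ℤ) ∣ l := by
    have := c.par 0
    omega
  obtain ⟨k, hk⟩ := hl
  have hc : ∀ i, ∃ ci, a i = 2 * ci := by
    intro i
    have := c.par i
    obtain ⟨m, hm⟩ := this
    exact ⟨m + k, by rw [hk] at hm; omega⟩
  choose ci hci using hc
  rw [c.o, hk]
  rcases Int.even_or_odd' k with ⟨m, hm | hm⟩
  · rw [hm]
    exact ⟨m, by ring⟩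
  exfalso
  have hsum : ∑ i, a i = 2 * ∑ i, ci i := by
    rw [Finset.mul_sum]
    exact Finset.sum_congr rfl fun i _ => hci i
  have hodd : ¬ (2 : ℤ) ∣ ∑ i, ci i := by
    have := c.sum
    rw [hsum, hk, hm] at this
    omega
  -- the norm
  set H := ∑ i, ci i ^ 2 + 3 * k ^ 2 with hH
  have hn : b w w = s * H := by
    have h1 := c.norm h hs0.ne'
    have h2 : ∑ i, a i ^ 2 = 4 * ∑ i, ci i ^ 2 := by
      rw [Finset.mul_sum]
      refine Finset.sum_congr rfl fun i _ => ?_
      rw [hci]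
      ring
    rw [h2, hk] at h1
    have h3 : 4 * b w w = 4 * (s * H) := by
      rw [hH]
      linear_combination h1
    linarith
  have hpair : ∀ i j, i ≠ j → H ∣ 2 * (ci i + ci j) ∧ H ∣ 2 * (ci i - ci j) := by
    intro i j hij
    obtain ⟨⟨w1, hw1, e1⟩, ⟨w2, hw2, e2⟩⟩ := hD.2.2 i j hij
    have hF : ∀ i k, (4 : ℤ) ∣ b (F i) (F k) := by
      intro i k
      by_cases hik : i = k
      · rw [hik, hD.1]
        exact Dvd.intro _ rfl
      · rw [hD.2.1 i k hik]
        exact dvd_zero _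
    have key : ∀ (w' : M) (e : ℤ), w' ∈ C → (2 : ℤ) • w' = F i + e • F j →
        H ∣ 2 * (ci i + e * ci j) := by
      intro w' e hw' he
      have h1 : (2 : ℤ) ∣ b (F 0) w' := by
        have h2 : 2 * b (F 0) w' = b (F 0) (F i) + e * b (F 0) (F j) := by
          rw [← smul_r h, he, add_r h, smul_r h]
        obtain ⟨u, hu⟩ := hF 0 i
        obtain ⟨v, hv⟩ := hF 0 j
        rw [hu, hv] at h2
        exact ⟨u + e * v, by linarith⟩
      have h2 := hdiv w' (AddSubgroup.subset_closure hw') h1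
      have h3 : 2 * b w w' = s * (2 * (ci i + e * ci j)) := by
        rw [← smul_r h, he, add_r h, smul_r h, c.f, c.f, hci, hci]
        ring
      rw [h3, hn] at h2
      exact (mul_dvd_mul_iff_left hs0.ne').mp h2
    constructor
    · have := key w1 1 hw1 (by rw [e1, one_smul])
      rwa [one_mul] at this
    · have := key w2 (-1) hw2 (by rw [e2]; simp [sub_eq_add_neg])
      have e : ci i + -1 * ci j = ci i - ci j := by ring
      rwa [e] at this
  obtain ⟨m0, hm0⟩ : ∃ i, ci i ≠ 0 := by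
    by_contra hcon
    push Not at hcon
    apply hodd
    rw [Finset.sum_eq_zero fun i _ => hcon i]
    exact dvd_zero _
  have hk1 : 1 ≤ k ^ 2 := by
    have : k ≠ 0 := by omega
    have := sq_nonneg k
    have h2 : k ^ 2 ≠ 0 := pow_ne_zero 2 ‹k ≠ 0›
    omega
  have hsplit : ∑ i, ci i ^ 2 = ci m0 ^ 2 + ∑ i ∈ Finset.univ.erase m0, ci i ^ 2 :=
    (Finset.add_sum_erase _ _ (Finset.mem_univ m0)).symm
  have habs : |ci m0| ^ 2 = ci m0 ^ 2 := sq_abs _
  have hapos : 0 < |ci m0| := abs_pos.mpr hm0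
  by_cases hall : ∃ j, j ≠ m0 ∧ ci j = 0
  · obtain ⟨j, hj, hj0⟩ := hall
    have h1 := (hpair m0 j hj.symm).1
    rw [hj0, add_zero] at h1
    have h2 : H ≤ |2 * ci m0| := Int.le_of_dvd (abs_pos.mpr (by simpa using hm0))
      ((dvd_abs _ _).mpr h1)
    rw [abs_mul] at h2
    have h3 : 0 ≤ ∑ i ∈ Finset.univ.erase m0, ci i ^ 2 := Finset.sum_nonneg fun i _ => sq_nonneg _
    have h4 : |(2 : ℤ)| = 2 := by norm_num
    rw [h4] at h2
    nlinarith
  · push Not at hall
    have h1 : H ∣ 4 * ci m0 := by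
      obtain ⟨j, hj⟩ : ∃ j : Fin 5, j ≠ m0 := exists_ne m0
      have := (hpair m0 j hj.symm).1.add (hpair m0 j hj.symm).2
      have e : 2 * (ci m0 + ci j) + 2 * (ci m0 - ci j) = 4 * ci m0 := by ring
      rwa [e] at this
    have h2 : H ≤ |4 * ci m0| := Int.le_of_dvd (abs_pos.mpr (by simpa using hm0))
      ((dvd_abs _ _).mpr h1)
    rw [abs_mul] at h2
    have h3 : 4 ≤ ∑ i ∈ Finset.univ.erase m0, ci i ^ 2 := by
      have h5 : ∑ i ∈ Finset.univ.erase m0, (1 : ℤ) ≤ ∑ i ∈ Finset.univ.erase m0, ci i ^ 2 := by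
        apply Finset.sum_le_sum
        intro i hi
        have h6 := hall i (Finset.ne_of_mem_erase hi)
        have h7 := sq_nonneg (ci i)
        have h8 : ci i ^ 2 ≠ 0 := pow_ne_zero 2 h6
        omega
      rw [Finset.sum_const, Finset.card_erase_of_mem (Finset.mem_univ _)] at h5
      simpa using h5
    have h4 : |(4 : ℤ)| = 4 := by norm_num
    rw [h4] at h2
    nlinarith [sq_nonneg (|ci m0| - 2)]

end Pool.Agent.CN2.H21
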