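import Pool.Agent.Helper21_CN2.Aln

/-!
Squad CN2, module K_AE6
-/

set_option autoImplicit false

namespace Pool.Agent.CN2.H21

open Pool.Agent.CON Pool.Agent.CON.H21 Pool.Agent.CN2

section

variable {M : Type} [AddCommGroup M] {b : M → M → ℤ} (h : PD b)

include h

theorem cl_dvd {C : Set M} {x : M} {m : ℤ} (hx : ∀ z ∈ C, m ∣ b x z) :
    ∀ z ∈ AddSubgroup.closure C, m ∣ b x z := by
  intro z hz
  refine AddSubgroup.closure_induction (p := fun z _ => m ∣ b x z) hx ?_ ?_ ?_ hz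
  · rw [zero_r h]
    exact dvd_zero _
  · intro y z _ _ hy hz
    rw [add_r h]
    exact hy.add hz
  · intro y _ hy
    rw [h.symm, sho_neg h, h.symm]
    exact hy.neg_right

theorem a1_facts {C : Set M} {s : ℤ} (hI : Irr b C s) (hT : HasTy b C s (.A 1)) :
    ∃ α ∈ C, (∀ y ∈ AddSubgroup.closure C, (2 : ℤ) ∣ b α y) ∧ ¬ Rk C 2 := by
  obtain ⟨_, v, hA, hInA⟩ := hT
  have hC : ∀ z ∈ C, z = v 0 ∨ z = - v 0 := by
    intro z hz
    rcases hInA z hz with ⟨i, hi⟩ | ⟨i, j, hij, _⟩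
    · rw [Subsingleton.elim i 0] at hi
      exact hi
    · exact absurd (Subsingleton.elim i j) hij
  have hv := hA.1 0
  refine ⟨v 0, hv, cl_dvd h ?_, ?_⟩
  · intro z hz
    have hn := hI.norm _ hv
    rcases hC z hz with rfl | rfl
    · rw [hn]
      exact Dvd.intro _ rfl
    · rw [h.symm, sho_neg h, hn]
      exact (Dvd.intro _ rfl : (2 : ℤ) ∣ 2 * s).neg_right
  · rintro ⟨c, hc, hli⟩
    have key : ∃ e : ℤ, c 0 = e • c 1 := by
      rcases hC _ (hc 0) with h0 | h0 <;> rcases hC _ (hc 1) with h1 | h1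
      · exact ⟨1, by rw [h0, h1, one_smul]⟩
      · exact ⟨-1, by rw [h0, h1]; simp⟩
      · exact ⟨-1, by rw [h0, h1]; simp⟩
      · exact ⟨1, by rw [h0, h1, one_smul]⟩
    obtain ⟨e, he⟩ := key
    rw [Fintype.linearIndependent_iff] at hli
    have := hli ![1, -e] (by rw [Fin.sum_univ_two]; simp [he]) 0
    simp at this

end

/-- the common part of K_AK4 and K_E6R -/
def PartK {M : Type} [AddCommGroup M] (b : M → M → ℤ) {k : ℕ} (C : Fin k → Set M) (i0 : Fin k) :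
    Prop := ∀ (l : List (Tch k M)) (r : ℤ), (l.map fun a => a.1).Nodup →
  (∀ a ∈ l, a.1 ≠ i0 ∧ a.2.1 ∈ AddSubgroup.closure (C a.1) ∧
    (∀ y ∈ AddSubgroup.closure (C a.1), (2 : ℤ) ∣ b a.2.1 y) ∧
    JR b (AddSubgroup.closure (C a.1)) a.2.1 a.2.2.1 a.2.2.2) →
  (l.map fun a => a.2.2.1).sum = 2 → (4 : ℤ) ∣ (l.map fun a => b a.2.1 a.2.1).sum →
  (∀ ρ : ℤ, (∀ a ∈ l, ∃ t, a.2.2.2 ρ t) → ρ = r) → False

/-- Module K_AE6. -/
theorem k_ae6 (hAK4 : K_AK4) (hE6R : K_E6R) (hROOT : J_ROOT) (hEV : J_EV) (hRAD : J_RAD)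
    (hTR : T_RAD) : K_AE6 := by
  intro M _ b k C s τ h hC hbad i0 i1 hs0 hτ0 h01
  have hP : PartK b C i0 := by
    intro l r h1 h2 h3 h4 h5
    rcases hτ0 with ⟨m, hm, hτ⟩ | hτ
    · exact hAK4 M b k C s τ h hC hbad i0 m l r hs0 hτ hm h1 h2 h3 h4 h5
    · exact hE6R M b k C s τ h hC hbad i0 l r hs0 hτ h1 h2 h3 h4 h5
  have hty : ∀ i, HasTy b (C i) (s i) (τ i) := hC.ty
  refine ⟨?_, ?_, ?_⟩
  · intro he hτ
    have hT := hty i1
    rw [hτ] at hT
    obtain ⟨α, hα, h1, h2⟩ := a1_facts h (hC.irr i1) hT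
    refine hP [(i1, α, 2, fun ρ t => (ρ = s i1 ∧ (t = α ∨ t = -α)) ∨
      (ρ = 3 * s i1 ∧ b t α = 0 ∧ Rk (C i1) 2 ∧ ¬ Rk (C i1) 3))] (s i1) (by simp) ?_ (by simp) ?_ ?_
    · intro a ha
      rw [List.mem_singleton] at ha
      subst ha
      exact ⟨h01.symm, AddSubgroup.subset_closure hα, h1,
        hEV M b (C i1) (s i1) α h (hC.irr i1) he hα⟩
    · simp only [List.map_cons, List.map_nil, List.sum_cons, List.sum_nil, add_zero]
      rw [(hC.irr i1).norm α hα]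
      omega
    · intro ρ hρ
      obtain ⟨t, ht⟩ := hρ _ (List.mem_singleton_self _)
      rcases ht with ⟨h3, _⟩ | ⟨_, _, h3, _⟩
      · exact h3
      · exact absurd h3 h2
  · intro ho hm
    obtain ⟨x, hx, h1, h2⟩ := hTR M b (C i1) (s i1) (τ i1) h (hC.irr i1) ho (hty i1) hm
    refine hP [(i1, x, 2, fun ρ _ => ρ = 2 * s i1)] (2 * s i1) (by simp) ?_ (by simp) ?_ ?_
    · intro a ha
      rw [List.mem_singleton] at ha
      subst ha
      exact ⟨h01.symm, hx, h1, hRAD M b (C i1) (s i1) x h (hC.irr i1) ho hx h1 h2⟩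
    · simp only [List.map_cons, List.map_nil, List.sum_cons, List.sum_nil, add_zero]
      obtain ⟨j, hj⟩ := h2
      omega
    · intro ρ hρ
      obtain ⟨t, ht⟩ := hρ _ (List.mem_singleton_self _)
      exact ht
  · intro i2 h12 ho1 hτ1 ho2 hτ2
    have h02 : i2 ≠ i0 := by
      rintro rfl
      rcases hτ0 with ⟨m, hm, hτ⟩ | hτ
      · rw [hτ2] at hτ
        injection hτ with hτ
        omega
      · rw [hτ2] at hτ
        exact absurd hτ (by simp)
    have hT1 := hty i1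
    rw [hτ1] at hT1
    have hT2 := hty i2
    rw [hτ2] at hT2
    obtain ⟨α, hα, h1, h2⟩ := a1_facts h (hC.irr i1) hT1
    obtain ⟨β, hβ, h3, h4⟩ := a1_facts h (hC.irr i2) hT2
    refine hP [(i1, α, 1, fun ρ t => (ρ = 2 * s i1 ∧ (t = α ∨ t = -α)) ∨
      (ρ = 6 * s i1 ∧ b t α = 0 ∧ Rk (C i1) 2 ∧ ¬ Rk (C i1) 3)),
      (i2, β, 1, fun ρ t => (ρ = 2 * s i2 ∧ (t = β ∨ t = -β)) ∨
      (ρ = 6 * s i2 ∧ b t β = 0 ∧ Rk (C i2) 2 ∧ ¬ Rk (C i2) 3))] (2 * s i1) (by simpa using h12) ?_ (by simp) ?_ ?_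
    · intro a ha
      rw [List.mem_cons, List.mem_singleton] at ha
      rcases ha with rfl | rfl
      · exact ⟨h01.symm, AddSubgroup.subset_closure hα, h1,
          hROOT M b (C i1) (s i1) α h (hC.irr i1) ho1 hα⟩
      · exact ⟨h02, AddSubgroup.subset_closure hβ, h3,
          hROOT M b (C i2) (s i2) β h (hC.irr i2) ho2 hβ⟩
    · simp only [List.map_cons, List.map_nil, List.sum_cons, List.sum_nil, add_zero]
      rw [(hC.irr i1).norm α hα, (hC.irr i2).norm β hβ]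
      omega
    · intro ρ hρ
      obtain ⟨t, ht⟩ := hρ _ List.mem_cons_self
      rcases ht with ⟨h5, _⟩ | ⟨_, _, h5, _⟩
      · exact h5
      · exact absurd h5 h2

end Pool.Agent.CN2.H21
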