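import Pool.Agent.Helper25_CN2.Stmts
import Pool.Agent.Helper21_CON.Esho

/-!
Squad CN2, module X_ALN
-/

set_option autoImplicit false

namespace Pool.Agent.CN2.H21

open Pool.Agent.CON Pool.Agent.CON.H21 Pool.Agent.CN2

section

variable {M : Type} [AddCommGroup M] {b : M → M → ℤ} (h : PD b)

include h

theorem zero_r (x : M) : b x 0 = 0 := by rw [h.symm, sho_zero h]

theorem add_r (x y z : M) : b x (y + z) = b x y + b x z := by
  rw [h.symm x (y + z), h.add_left, h.symm y x, h.symm z x]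

theorem smul_r (k : ℤ) (x y : M) : b x (k • y) = k * b x y := by
  rw [h.symm x (k • y), sho_smul h, h.symm y x]

theorem sub_r (x y z : M) : b x (y - z) = b x y - b x z := by
  rw [h.symm x (y - z), sho_sub h, h.symm y x, h.symm z x]

theorem nonneg (x : M) : 0 ≤ b x x := by
  by_cases hx : x = 0
  · rw [hx, sho_zero h]
  · exact (h.pos x hx).le

theorem newR_shift {x y t : M} {ρ : ℤ} (hN : NewR b (x + (2 : ℤ) • y) t ρ) : NewR b x t ρ := by
  obtain ⟨⟨z, hz⟩, h1, h2, h3, h4⟩ := hN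
  refine ⟨⟨y + z, ?_⟩, h1, h2, h3, ?_⟩
  · rw [hz, smul_add, add_assoc]
  · intro w hw
    apply h4
    rw [h.add_left, sho_smul h]
    exact (Dvd.dvd.add hw (Dvd.intro _ rfl))

/-- the shift to norm 4 modulo 8 -/
theorem shift {x1 x2 : M} {S1 : AddSubgroup M}
    (h4 : (4 : ℤ) ∣ b (x1 + x2) (x1 + x2)) {y0 : M} (hy0 : y0 ∈ S1) (ho : ¬ (2 : ℤ) ∣ b x1 y0)
    (ho2 : b x2 y0 = 0) :
    ∃ y ∈ S1, ∃ k : ℤ, b (x1 + (2 : ℤ) • y + x2) (x1 + (2 : ℤ) • y + x2) = 8 * k + 4 := by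
  obtain ⟨j, hj⟩ := h4
  rcases Int.even_or_odd' j with ⟨i, hi | hi⟩
  · refine ⟨y0, hy0, ?_⟩
    obtain ⟨c, hc⟩ := h.even y0
    obtain ⟨m, hm⟩ : ∃ m, b x1 y0 = 2 * m + 1 := by
      rcases Int.even_or_odd' (b x1 y0) with ⟨m, hm | hm⟩
      · exact absurd ⟨m, hm⟩ ho
      · exact ⟨m, hm⟩
    refine ⟨i + m + c, ?_⟩
    have e : x1 + (2 : ℤ) • y0 + x2 = (x1 + x2) + (2 : ℤ) • y0 := by abel
    have e2 : ∀ u : M, b (u + (2 : ℤ) • y0) (u + (2 : ℤ) • y0) =
        b u u + 4 * b u y0 + 4 * b y0 y0 := by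
      intro u
      rw [h.add_left, add_r h u, sho_smul h, smul_r h, add_r h y0, smul_r h, h.symm y0 u]
      ring
    rw [e, e2, hj, hc, h.add_left x1 x2 y0, ho2, hm, hi]
    ring
  · refine ⟨0, zero_mem _, i, ?_⟩
    rw [smul_zero, add_zero, hj, hi]
    ring

end

/-- Module X_ALN. -/
theorem x_aln (hGEN : X_GEN) : X_ALN := by
  intro M _ b S1 S2 x1 x2 ω μ e0 h horth htop hx1 hx2 hω hμ hodd hev h4 hlin he0 hnew hold
  obtain ⟨y1, hy1, hy1o⟩ := hodd
  have horth' : ∀ y ∈ S1, ∀ z ∈ S2, b z y = 0 := fun y hy z hz => by rw [h.symm, horth y hy z hz]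
  obtain ⟨y, hy, k, hk⟩ := shift h h4 hy1 hy1o (horth' _ hy1 _ hx2)
  set x' := x1 + (2 : ℤ) • y with hx'
  have hx'S : x' ∈ S1 := add_mem hx1 (zsmul_mem hy 2)
  set x := x' + x2 with hx
  -- products with x
  have hxS1 : ∀ w ∈ S1, b x w = b x1 w + 2 * b y w := by
    intro w hw
    rw [hx, hx', h.add_left, h.add_left, sho_smul h, horth' w hw x2 hx2, add_zero]
  have hxS2 : ∀ w ∈ S2, b x w = b x2 w := by
    intro w hw
    rw [hx, h.add_left, horth x' hx'S w hw, zero_add]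
  refine ⟨x, ⟨k, hk⟩, hGEN M b x ω (4 * μ) e0 h ⟨k, hk⟩ ⟨y1, ?_⟩ he0 ?_ ?_ ?_ ?_⟩
  · rw [hxS1 y1 hy1]
    intro hc
    exact hy1o ((Int.dvd_add_left (Dvd.intro _ rfl)).mp hc)
  · -- 2 ∣ b x ω + e0
    obtain ⟨j, hj⟩ := hlin x' hx'S
    obtain ⟨c, hc⟩ := h.even x1
    obtain ⟨e, he⟩ := he0
    have e1 : b x ω = b x' ω := by rw [hx, h.add_left, horth' ω hω x2 hx2, add_zero]
    have e2 : b x' x1 = 2 * c + 2 * b y x1 := by rw [hx', h.add_left, sho_smul h, hc]
    rw [e1, he]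
    refine ⟨μ * j + μ * (c + b y x1) + 2 * μ * e, ?_⟩
    rw [e2] at hj
    linear_combination hj
  · intro t ρ hN
    have h1 : NewR b (x1 + x2) t ρ := by
      apply newR_shift h (y := y)
      have e : x1 + x2 + (2 : ℤ) • y = x := by rw [hx, hx']; abel
      rw [e]
      exact hN
    have h2 := hnew t ρ h1
    have e : 2 * (4 * μ) = 8 * μ := by ring
    rw [e]
    exact h2
  · intro v hv0 hxv hv1 hv2
    obtain ⟨v1, hv1S, v2, hv2S, hv⟩ := AddSubgroup.mem_sup.mp (htop ▸ AddSubgroup.mem_top v)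
    have e1 : b v ω = b v1 ω := by rw [← hv, h.add_left, horth' ω hω v2 hv2S, add_zero]
    have hR : b v v = b v1 v1 + b v2 v2 := by
      rw [← hv, h.add_left, add_r h, add_r h, horth v1 hv1S v2 hv2S, horth' v1 hv1S v2 hv2S]
      ring
    have hvy : ∀ w ∈ S1, b v w = b v1 w := by
      intro w hw
      rw [← hv, h.add_left, horth' w hw v2 hv2S, add_zero]
    rw [e1]
    have hx1v1 : (2 : ℤ) ∣ b x1 v1 := by
      have h1 : b x v = b x1 v1 + 2 * b y v1 + b x2 v2 := by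
        rw [← hv, add_r h, hxS1 v1 hv1S, hxS2 v2 hv2S]
      have h2 := hev v2 hv2S
      rw [h1] at hxv
      omega
    have hM0 : ∀ w ∈ S1, (2 : ℤ) ∣ b x1 w → (2 : ℤ) ∣ b x w := by
      intro w hw hw2
      rw [hxS1 w hw]
      omega
    by_cases hv10 : v1 = 0
    · rw [hv10, sho_zero h]
      exact dvd_zero _
    · apply hold v1 hv1S hv10 hx1v1
      have h1 : b v v ∣ 2 * b v1 v1 := by
        have := hv1 v1 (hM0 v1 hv1S hx1v1)
        rwa [hvy v1 hv1S] at this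
      have hp := h.pos v1 hv10
      have hn := nonneg h v2
      have hR1 : b v1 v1 ∣ b v v := by
        obtain ⟨j, hj⟩ := h1
        have hRpos : 0 < b v v := h.pos v hv0
        have hj0 : 0 < j := by
          by_contra hcon
          push Not at hcon
          nlinarith
        have hj2 : j ≤ 2 := by
          by_contra hcon
          push Not at hcon
          nlinarith
        have : j = 1 ∨ j = 2 := by omega
        rcases this with rfl | rfl
        · exact ⟨2, by linarith⟩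
        · exact ⟨1, by linarith⟩
      intro w hw hw2
      have h3 := hv1 w (hM0 w hw hw2)
      rw [hvy w hw] at h3
      exact hR1.trans h3
  · refine ⟨(2 : ℤ) • y1, ?_, ?_⟩
    · rw [smul_r h]
      exact Dvd.intro _ rfl
    · rw [sho_smul h]
      rintro ⟨j, hj⟩
      obtain ⟨i, hi⟩ := hlin y1 hy1
      apply hy1o
      have e1 : 2 * μ * (b y1 x1) = 2 * μ * (2 * (j - i)) := by
        linear_combination hj - 2 * hi
      have e2 := mul_left_cancel₀ (by simpa using hμ : (2 * μ) ≠ 0) e1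
      rw [h.symm, e2]
      exact Dvd.intro _ rfl

end Pool.Agent.CN2.H21
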