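import Pool.Agent.Helper21_CN2.Xaln

/-!
Squad CN2, module X_F1
-/

set_option autoImplicit false

namespace Pool.Agent.CN2.H21

open Pool.Agent.CON Pool.Agent.CON.H21 Pool.Agent.CN2

theorem orth_cl {M : Type} [AddCommGroup M] {b : M → M → ℤ} (h : PD b) {C : Set M} {x : M}
    (hx : ∀ z ∈ C, b x z = 0) : ∀ z ∈ AddSubgroup.closure C, b x z = 0 := by
  intro z hz
  refine AddSubgroup.closure_induction (p := fun z _ => b x z = 0) hx ?_ ?_ ?_ hz
  · exact zero_r h x
  · intro y z _ _ hy hz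
    rw [add_r h, hy, hz, add_zero]
  · intro y _ hy
    rw [h.symm, sho_neg h, h.symm, hy, neg_zero]

/-- Module X_F1. -/
theorem x_f1 (hGEN : X_GEN) (hVAL : E_VAL) : X_F1 := by
  intro M _ b S1 C s x1 α β e0 h hI hs horth0 htop hx1 hα hβ hαβ hodd h4 he0 hnew
  obtain ⟨y1, hy1, hy1o⟩ := hodd
  have horth : ∀ y ∈ S1, ∀ z ∈ AddSubgroup.closure C, b y z = 0 := fun y hy =>
    orth_cl h (horth0 y hy)
  have horth' : ∀ y ∈ S1, ∀ z ∈ AddSubgroup.closure C, b z y = 0 := fun y hy z hz => by
    rw [h.symm, horth y hy z hz]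
  have hαc : α ∈ AddSubgroup.closure C := AddSubgroup.subset_closure hα
  have hβc : β ∈ AddSubgroup.closure C := AddSubgroup.subset_closure hβ
  have hs0 := hI.pos
  obtain ⟨y, hy, k, hk⟩ := shift h h4 hy1 hy1o (horth' _ hy1 _ hαc)
  set x' := x1 + (2 : ℤ) • y with hx'
  have hx'S : x' ∈ S1 := add_mem hx1 (zsmul_mem hy 2)
  set x := x' + α with hx
  have hxS1 : ∀ w ∈ S1, b x w = b x1 w + 2 * b y w := by
    intro w hw
    rw [hx, hx', h.add_left, h.add_left, sho_smul h, horth' w hw α hαc, add_zero]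
  have hxS2 : ∀ w ∈ AddSubgroup.closure C, b x w = b α w := by
    intro w hw
    rw [hx, h.add_left, horth x' hx'S w hw, zero_add]
  have hval : ∀ w ∈ AddSubgroup.closure C, s ∣ b α w := by
    intro w hw
    exact (hVAL M b C s h hI α hαc).1 w hw
  have hy1x : ¬ (2 : ℤ) ∣ b x y1 := by
    rw [hxS1 y1 hy1]
    intro hc
    exact hy1o ((Int.dvd_add_left (Dvd.intro _ rfl)).mp hc)
  refine ⟨x, ⟨k, hk⟩, hGEN M b x α (2 * s) e0 h ⟨k, hk⟩ ⟨y1, hy1x⟩ he0 ?_ ?_ ?_ ?_⟩
  · rw [hxS2 α hαc, hI.norm α hα]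
    exact (Dvd.intro _ rfl).add ((Dvd.intro _ rfl : (2 : ℤ) ∣ 2 * s).trans he0)
  · intro t ρ hN
    have h1 : NewR b (x1 + α) t ρ := by
      apply newR_shift h (y := y)
      have e : x1 + α + (2 : ℤ) • y = x := by rw [hx, hx']; abel
      rw [e]
      exact hN
    have h2 := hnew t ρ h1
    have e : 2 * (2 * s) = 4 * s := by ring
    rw [e]
    exact h2
  · intro v hv0 hxv hv1 hv2
    obtain ⟨v1, hv1S, v2, hv2S, hv⟩ := AddSubgroup.mem_sup.mp (htop ▸ AddSubgroup.mem_top v)
    have hR : b v v = b v1 v1 + b v2 v2 := by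
      rw [← hv, h.add_left, add_r h, add_r h, horth v1 hv1S v2 hv2S, horth' v1 hv1S v2 hv2S]
      ring
    have e1 : b v α = b v2 α := by
      rw [← hv, h.add_left, horth v1 hv1S α hαc, zero_add]
    have hvx : b v x = b x v := h.symm v x
    obtain ⟨n, hn⟩ := (hVAL M b C s h hI v2 hv2S).1 α hαc
    obtain ⟨m, hm⟩ := (hVAL M b C s h hI v2 hv2S).2
    rw [e1, hn]
    rcases Int.even_or_odd' n with ⟨c, hc | hc⟩
    · rw [hc]
      exact ⟨c, by ring⟩
    exfalso
    have hxv2 : (2 : ℤ) ∣ b x v2 := by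
      rw [hxS2 v2 hv2S]
      exact hs.trans (hval v2 hv2S)
    have hxv1 : (2 : ℤ) ∣ b x v1 := by
      have h1 : b x v = b x v1 + b x v2 := by rw [← hv, add_r h]
      rw [h1] at hxv
      exact (Int.dvd_add_left hxv2).mp hxv
    have hvv2 : b v v2 = b v2 v2 := by
      rw [← hv, h.add_left, horth v1 hv1S v2 hv2S, zero_add]
    have h2 : b v v ∣ 2 * b v2 v2 := by
      have := hv1 v2 hxv2
      rwa [hvv2] at this
    have hv20 : v2 ≠ 0 := by
      rintro rfl
      rw [sho_zero h] at hn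
      have : s * n ≠ 0 := mul_ne_zero hs0.ne' (by omega)
      exact this hn.symm
    have hp2 := h.pos v2 hv20
    have hn1 := nonneg h v1
    have hRpos : 0 < b v v := h.pos v hv0
    obtain ⟨j, hj⟩ := h2
    have hj0 : 0 < j := by
      by_contra hcon
      push Not at hcon
      nlinarith
    have hj2 : j ≤ 2 := by
      by_contra hcon
      push Not at hcon
      nlinarith
    have h3 : b v v ∣ 2 * (s * n) := by
      have := hv1 α (by rw [hxS2 α hαc]; exact hs.trans (hval α hαc))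
      rwa [e1, hn] at this
    have hj' : j = 1 ∨ j = 2 := by omega
    rcases hj' with rfl | rfl
    · -- R = 2 v2²: h is even
      have h5 : b v v = 2 * (2 * s * m) := by rw [← hm]; linarith
      rw [h5] at h3
      obtain ⟨i, hi⟩ := h3
      have h6 : s * n = s * (2 * (m * i)) := by
        have h7 : 2 * (s * n) = 2 * (s * (2 * (m * i))) := by linear_combination hi
        linarith
      have h7 := mul_left_cancel₀ hs0.ne' h6
      omega
    · have h5 : b v v = b v2 v2 := by linarith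
      have h6 : b v1 v1 = 0 := by linarith
      have hv10 : v1 = 0 := by
        by_contra hne
        exact (h.pos v1 hne).ne' h6
      have h7 := hv2 y1 hy1x
      have h8 : b v y1 = 0 := by
        rw [← hv, hv10, zero_add, horth' y1 hy1 v2 hv2S]
      have h9 : b v x = s * n := by
        rw [← hv, hv10, zero_add, h.symm, hxS2 v2 hv2S, h.symm, hn]
      rw [h8, h9, h5, hm] at h7
      obtain ⟨i, hi⟩ := h7
      have h10 : s * n = s * (2 * (-(m * i))) := by linear_combination -hi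
      have h11 := mul_left_cancel₀ hs0.ne' h10
      omega
  · refine ⟨β, ?_, ?_⟩
    · rw [hxS2 β hβc, hαβ]
      exact hs
    · rw [h.symm, hαβ]
      rintro ⟨i, hi⟩
      have h1 : s * 1 = s * (2 * i) := by linear_combination hi
      have h2 := mul_left_cancel₀ hs0.ne' h1
      omega

end Pool.Agent.CN2.H21
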